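import Pool.Agent.Helper60_SEP.Stmts

/-!
# MP_ff6f12_co, squad SEP: module COL (the colouring of the core)
-/

set_option autoImplicit false

open SimpleGraph

namespace Pool.Agent.SEP60.H43

open Pool.Agent.RS80 Pool.Agent.RS81 Pool.Agent.SEP60

variable {V : Type} {B : SimpleGraph V}

theorem exists_kappa (hc : B.Colorable 2) : ∃ κ : V → Bool, ∀ x y, B.Adj x y → κ x ≠ κ y := by
  obtain ⟨c⟩ := hc
  refine ⟨fun v => decide (c v = 0), fun x y h h2 => ?_⟩
  have h1 := c.valid h
  apply h1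
  have h3 : (c x = 0) ↔ (c y = 0) := decide_eq_decide.1 h2
  by_cases hx : c x = 0
  · rw [hx, h3.1 hx]
  · have hy : c y ≠ 0 := fun h => hx (h3.2 h)
    rw [Fin.eq_one_of_ne_zero _ hx, Fin.eq_one_of_ne_zero _ hy]

theorem bool_three {a b c : Bool} (h1 : a ≠ b) (h2 : a ≠ c) : b = c := by
  cases a <;> cases b <;> cases c <;> simp_all

/-! ### Red copies -/

/-- the vertex belongs to the red hub of `i` -/
def PR (B : SimpleGraph V) {M a : ℕ} (i : V) (x : CU V M a) : Prop :=
  match x with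
    | .inl _ => False
    | .inr (.inr q) => q.1 = i
    | .inr (.inl p) => KD B i p.1 p.2.1 p.2.2.2

theorem PR.step {κ : V → Bool} (hκ : ∀ x y, B.Adj x y → κ x ≠ κ y) {M a : ℕ} {i : V}
    {x y : CU V M a} (hxy : (coreR B M a).Adj x y) (hx : PR B i x) : PR B i y := by
  rcases x with x | x | x
  · exact hx.elim
  · rcases y with y | y | y
    · exact hxy.elim
    · exact hxy.elim
    · obtain ⟨h1, h2, h3, h4, h5⟩ : KD B y.1 x.1 x.2.1 x.2.2.2 := hxy
      obtain ⟨g1, g2, g3, g4, g5⟩ : KD B i x.1 x.2.1 x.2.2.2 := hx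
      change y.1 = i
      by_contra hne
      have h6 : B.Adj y.1 i := by
        rcases h2 with h2 | h2 <;> rcases g2 with g2 | g2
        · exact absurd (h2.trans g2.symm) hne
        · rw [h2, g2]; exact h1
        · rw [h2, g2]; exact h1.symm
        · exact absurd (h2.trans g2.symm) hne
      exact hκ _ _ h6 (bool_three (hκ _ _ h5.symm) (hκ _ _ g5.symm))
  · rcases y with y | y | y
    · exact hxy.elim
    · have h1 : KD B x.1 y.1 y.2.1 y.2.2.2 := hxy
      have h2 : x.1 = i := hx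
      rw [h2] at h1
      exact h1
    · exact hxy.elim

theorem red [Finite V] (hB : TwoConn B) (hc : B.Colorable 2) (M a : ℕ)
    (hfree : ∀ N, B.Free (completeBipartiteGraph (Fin a) (Fin N))) (f : Copy B (coreR B M a))
    (v : V) : ∃ i, f v = .inl i := by
  classical
  obtain ⟨κ, hκ⟩ := exists_kappa hc
  have hadj : ∀ u w, B.Adj u w → (coreR B M a).Adj (f u) (f w) := fun u w h =>
    f.toHom.map_adj h
  by_contra hv
  -- no vertex is in the cell
  have hno : ∀ u, ¬ ∃ i, f u = .inl i := by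
    intro u hu
    apply hv
    refine prop_of_preconnected hB.2.1.preconnected (fun u => ∃ i, f u = .inl i) ?_ hu v
    rintro x y hxy ⟨i, hi⟩
    have h1 := hadj x y hxy
    rw [hi] at h1
    rcases hy : f y with j | p | q
    · exact ⟨j, rfl⟩
    · rw [hy] at h1; exact h1.elim
    · rw [hy] at h1; exact h1.elim
  -- the hub
  obtain ⟨i, hi⟩ : ∃ i, PR B i (f v) := by
    rcases hfv : f v with j | p | q
    · exact absurd ⟨j, hfv⟩ (hno v)
    · obtain ⟨u, hu⟩ := hB.exists_adj v
      have h1 := hadj v u hu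
      rw [hfv] at h1
      rcases hy : f u with j | p' | q
      · exact absurd ⟨j, hy⟩ (hno u)
      · rw [hy] at h1; exact h1.elim
      · rw [hy] at h1
        exact ⟨q.1, h1⟩
    · exact ⟨q.1, rfl⟩
  have hall : ∀ u, PR B i (f u) := fun u =>
    prop_of_preconnected hB.2.1.preconnected (fun u => PR B i (f u))
      (fun x y hxy hx => PR.step hκ (hadj x y hxy) hx) hi u
  let e : (V × V × Fin M × V) ≃ Fin (Nat.card (V × V × Fin M × V)) := Finite.equivFin _
  have hex : ∀ u, ∃ y : Fin a ⊕ Fin (Nat.card (V × V × Fin M × V)),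
      (∃ r, f u = .inr (.inr (i, r)) ∧ y = .inl r) ∨ (∃ p, f u = .inr (.inl p) ∧ y = .inr (e p)) := by
    intro u
    have h1 := hall u
    rcases hy : f u with j | p | q
    · exact absurd ⟨j, hy⟩ (hno u)
    · exact ⟨_, Or.inr ⟨p, rfl, rfl⟩⟩
    · rw [hy] at h1
      have h2 : q.1 = i := h1
      refine ⟨.inl q.2, Or.inl ⟨q.2, ?_, rfl⟩⟩
      rw [← h2]
  choose g hg using hex
  apply hfree (Nat.card (V × V × Fin M × V))
  refine ⟨⟨⟨g, ?_⟩, ?_⟩⟩
  · intro x y hxy
    have h1 := hadj x y hxy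
    rcases hg x with ⟨r, h2, h3⟩ | ⟨p, h2, h3⟩ <;> rcases hg y with ⟨r', h4, h5⟩ | ⟨p', h4, h5⟩
    · rw [h2, h4] at h1; exact h1.elim
    · rw [h3, h5]; simp
    · rw [h3, h5]; simp
    · rw [h2, h4] at h1; exact h1.elim
  · intro x y hxy
    have hxy' : g x = g y := hxy
    apply f.injective
    change f x = f y
    rcases hg x with ⟨r, h2, h3⟩ | ⟨p, h2, h3⟩ <;> rcases hg y with ⟨r', h4, h5⟩ | ⟨p', h4, h5⟩
    · rw [h3, h5] at hxy'
      rw [h2, h4, Sum.inl_injective hxy']
    · rw [h3, h5] at hxy'; exact absurd hxy' (by simp)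
    · rw [h3, h5] at hxy'; exact absurd hxy' (by simp)
    · rw [h3, h5] at hxy'
      rw [h2, h4, e.injective (Sum.inr_injective hxy')]

/-! ### Blue copies -/

theorem kappa_core {κ : V → Bool} (hκ : ∀ x y, B.Adj x y → κ x ≠ κ y) {M a : ℕ}
    {x y : CU V M a} (hxy : (coreS B M a).Adj x y) : coreκ κ x ≠ coreκ κ y := by
  rcases x with x | x | x
  · rcases y with y | y | y
    · exact hxy.elim
    · have h : KD B x y.1 y.2.1 y.2.2.2 := hxy
      exact hκ _ _ h.2.2.2.2
    · exact hxy.elim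
  · rcases y with y | y | y
    · have h : KD B y x.1 x.2.1 x.2.2.2 := hxy
      exact (hκ _ _ h.2.2.2.2).symm
    · have h : DD B x y := hxy
      exact hκ _ _ h.2.2.2.2.2.2.2.2
    · exact hxy.elim
  · exact hxy.elim

/-- an injective endomorphism of a finite graph hits every edge -/
theorem hom_edge [Finite V] {g : V → V} (hg : Function.Injective g)
    (hadj : ∀ u v, B.Adj u v → B.Adj (g u) (g v)) {x y : V} (hxy : B.Adj x y) :
    ∃ u v, B.Adj u v ∧ g u = x ∧ g v = y := by
  classical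
  by_contra hcon
  push Not at hcon
  have h1 : Sym2.map g '' B.edgeSet ⊆ B.edgeSet \ {s(x, y)} := by
    rintro _ ⟨e, he, rfl⟩
    induction e using Sym2.ind with
    | _ u v =>
      rw [SimpleGraph.mem_edgeSet] at he
      refine ⟨?_, ?_⟩
      · rw [Sym2.map_mk, SimpleGraph.mem_edgeSet]
        exact hadj u v he
      · rw [Set.mem_singleton_iff, Sym2.map_mk, Sym2.eq_iff]
        rintro (⟨h2, h3⟩ | ⟨h2, h3⟩)
        · exact hcon u v he h2 h3
        · exact hcon v u he.symm h3 h2
  have hfin : B.edgeSet.Finite := Set.toFinite _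
  have h2 := Set.ncard_le_ncard h1 (hfin.subset Set.sdiff_subset)
  rw [Set.ncard_image_of_injective _ (Sym2.map.injective hg)] at h2
  have h3 : (B.edgeSet \ {s(x, y)}).ncard < B.edgeSet.ncard := by
    apply Set.ncard_lt_ncard _ hfin
    refine ⟨Set.sdiff_subset, fun h => ?_⟩
    exact (h (show s(x, y) ∈ B.edgeSet from hxy)).2 rfl
  omega

theorem blue [Finite V] (hB : TwoConn B) (hc : B.Colorable 2) (ho : NoOpp B) (M a : ℕ) :
    B.Free (coreS B M a) := by
  classical
  rintro ⟨f⟩
  obtain ⟨κ, hκ⟩ := exists_kappa hc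
  have hadj : ∀ u w, B.Adj u w → (coreS B M a).Adj (f u) (f w) := fun u w h =>
    f.toHom.map_adj h
  have finj : ∀ u w, f u = f w → u = w := fun u w h => f.injective h
  -- no hubs
  have hhub : ∀ u q, f u ≠ .inr (.inr q) := by
    intro u q hu
    obtain ⟨w, hw⟩ := hB.exists_adj u
    have h1 := hadj u w hw
    rw [hu] at h1
    rcases hy : f w with j | p | q <;> rw [hy] at h1 <;> exact h1.elim
  -- a vertex of type d
  obtain ⟨v₀, p₀, hv₀⟩ : ∃ v p, f v = .inr (.inl p) := by
    obtain ⟨v⟩ := hB.2.1.nonempty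
    obtain ⟨w, hw⟩ := hB.exists_adj v
    have h1 := hadj v w hw
    rcases hy : f v with j | p | q
    · rcases hz : f w with j' | p | q
      · rw [hy, hz] at h1; exact h1.elim
      · exact ⟨w, p, hz⟩
      · exact absurd hz (hhub w q)
    · exact ⟨v, p, hy⟩
    · exact absurd hy (hhub v q)
  obtain ⟨i, j, c, w₀⟩ := p₀
  -- the neighbours of a d-vertex
  have hnb : ∀ u w u', f u = .inr (.inl (i, j, c, w)) → B.Adj u u' →
      B.Adj i j ∧ w ≠ i ∧ w ≠ j ∧ (((f u' = .inl i ∨ f u' = .inl j)) ∨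
        ∃ w', f u' = .inr (.inl (i, j, c, w'))) := by
    intro u w u' hu huu
    have h1 := hadj u u' huu
    rw [hu] at h1
    rcases hy : f u' with k | p | q
    · rw [hy] at h1
      obtain ⟨h2, h3, h4, h5, h6⟩ : KD B k i j w := h1
      refine ⟨h2, h4, h5, Or.inl ?_⟩
      rcases h3 with h3 | h3
      · left; rw [h3]
      · right; rw [h3]
    · rw [hy] at h1
      obtain ⟨h2, h3, h4, h5, h6, h7, h8, h9, h10⟩ :
        DD B (i, j, c, w) p := h1
      refine ⟨h5, h6, h7, Or.inr ⟨p.2.2.2, ?_⟩⟩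
      obtain ⟨p1, p2, p3, p4⟩ := p
      simp only at h2 h3 h4
      rw [h2, h3, h4]
    · exact absurd hy (hhub u' q)
  have hij : B.Adj i j := by
    obtain ⟨u', hu'⟩ := hB.exists_adj v₀
    exact (hnb v₀ w₀ u' hv₀ hu').1
  -- everything is in the structure
  have hall : ∀ u, (f u = .inl i ∨ f u = .inl j) ∨ ∃ w, f u = .inr (.inl (i, j, c, w)) := by
    -- propagation avoiding the preimages of the two cell vertices
    have hstep : ∀ x y, B.Adj x y → (∃ w, f x = .inr (.inl (i, j, c, w))) →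
        ¬ (f y = .inl i ∨ f y = .inl j) → ∃ w, f y = .inr (.inl (i, j, c, w)) := by
      rintro x y hxy ⟨w, hw⟩ hy
      exact (hnb x w y hw hxy).2.2.2.resolve_left hy
    have hv0i : f v₀ ≠ .inl i := by rw [hv₀]; simp
    have hv0j : f v₀ ≠ .inl j := by rw [hv₀]; simp
    intro u
    by_contra hu
    push Not at hu
    obtain ⟨⟨hui, huj⟩, hud⟩ := hu
    have hud' : ¬ ∃ w, f u = .inr (.inl (i, j, c, w)) := by
      rintro ⟨w, hw⟩
      exact hud w hw
    apply hud'
    by_cases hi : ∃ x, f x = .inl i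
    · obtain ⟨x, hx⟩ := hi
      have hv0x : v₀ ≠ x := fun h => hv0i (h ▸ hx)
      have hux : u ≠ x := fun h => hui (h ▸ hx)
      by_cases hj : ∃ y, f y = .inl j
      · obtain ⟨y, hy⟩ := hj
        have hv0y : v₀ ≠ y := fun h => hv0j (h ▸ hy)
        have huy : u ≠ y := fun h => huj (h ▸ hy)
        have hk : ∀ a b, B.Adj a b → coreκ κ (f a) ≠ coreκ κ (f b) := fun a b hab =>
          kappa_core hκ (hadj a b hab)
        have hxy : coreκ κ (f x) ≠ coreκ κ (f y) := by
          rw [hx, hy]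
          exact hκ i j hij
        have hpre := ho (fun v => coreκ κ (f v)) hk x y hxy
        have := prop_of_preconnected hpre (fun z => ∃ w, f z.1 = .inr (.inl (i, j, c, w)))
          (fun a b hab ha => hstep a.1 b.1 hab ha (by
            rintro (h | h)
            · exact b.2 (Or.inl (finj _ _ (h.trans hx.symm)))
            · exact b.2 (Or.inr (finj _ _ (h.trans hy.symm)))))
          (u := ⟨v₀, by
            rintro (h | h)
            · exact hv0x h
            · exact hv0y h⟩) ⟨w₀, hv₀⟩ ⟨u, by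
            rintro (h | h)
            · exact hux h
            · exact huy h⟩
        exact this
      · refine hB.prop (fun z => ∃ w, f z = .inr (.inl (i, j, c, w))) x ?_ ⟨w₀, hv₀⟩ hv0x u hux
        intro a b hab ha hbx
        refine hstep a b hab ha ?_
        rintro (h | h)
        · exact hbx (finj _ _ (h.trans hx.symm))
        · exact hj ⟨b, h⟩
    · by_cases hj : ∃ y, f y = .inl j
      · obtain ⟨y, hy⟩ := hj
        have hv0y : v₀ ≠ y := fun h => hv0j (h ▸ hy)
        have huy : u ≠ y := fun h => huj (h ▸ hy)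
        refine hB.prop (fun z => ∃ w, f z = .inr (.inl (i, j, c, w))) y ?_ ⟨w₀, hv₀⟩ hv0y u huy
        intro a b hab ha hbx
        refine hstep a b hab ha ?_
        rintro (h | h)
        · exact hi ⟨b, h⟩
        · exact hbx (finj _ _ (h.trans hy.symm))
      · refine prop_of_preconnected hB.2.1.preconnected
          (fun z => ∃ w, f z = .inr (.inl (i, j, c, w))) ?_ ⟨w₀, hv₀⟩ u
        intro a b hab ha
        refine hstep a b hab ha ?_
        rintro (h | h)
        · exact hi ⟨b, h⟩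
        · exact hj ⟨b, h⟩
  -- the bijective homomorphism
  have hex : ∀ u, ∃ w, (f u = .inr (.inl (i, j, c, w)) ∧ w ≠ i ∧ w ≠ j) ∨
      (f u = .inl i ∧ w = i) ∨ (f u = .inl j ∧ w = j) := by
    intro u
    rcases hall u with (h | h) | ⟨w, h⟩
    · exact ⟨i, Or.inr (Or.inl ⟨h, rfl⟩)⟩
    · exact ⟨j, Or.inr (Or.inr ⟨h, rfl⟩)⟩
    · obtain ⟨u', hu'⟩ := hB.exists_adj u
      obtain ⟨-, h1, h2, -⟩ := hnb u w u' h hu'
      exact ⟨w, Or.inl ⟨h, h1, h2⟩⟩
  choose g hg using hex
  have hginj : Function.Injective g := by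
    intro u u' huu
    apply finj
    rcases hg u with ⟨h1, h2, h3⟩ | ⟨h1, h2⟩ | ⟨h1, h2⟩ <;>
      rcases hg u' with ⟨k1, k2, k3⟩ | ⟨k1, k2⟩ | ⟨k1, k2⟩
    · rw [h1, k1, huu]
    · exact absurd (huu.trans k2) h2
    · exact absurd (huu.trans k2) h3
    · exact absurd (huu.symm.trans h2) k2
    · rw [h1, k1]
    · exact absurd (h2.symm.trans (huu.trans k2)) hij.ne
    · exact absurd (huu.symm.trans h2) k3
    · exact absurd (h2.symm.trans (huu.trans k2)) hij.ne'
    · rw [h1, k1]
  have hghom : ∀ u u', B.Adj u u' → B.Adj (g u) (g u') := by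
    intro u u' huu
    have hh := hadj u u' huu
    rcases hg u with ⟨h1, h2, h3⟩ | ⟨h1, h2⟩ | ⟨h1, h2⟩ <;>
      rcases hg u' with ⟨k1, k2, k3⟩ | ⟨k1, k2⟩ | ⟨k1, k2⟩ <;> rw [h1, k1] at hh
    · have h : DD B (i, j, c, g u) (i, j, c, g u') := hh
      exact h.2.2.2.2.2.2.2.2
    · have h : KD B i i j (g u) := hh
      rw [k2]
      exact h.2.2.2.2.symm
    · have h : KD B j i j (g u) := hh
      rw [k2]
      exact h.2.2.2.2.symm
    · have h : KD B i i j (g u') := hh
      rw [h2]
      exact h.2.2.2.2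
    · exact hh.elim
    · exact hh.elim
    · have h : KD B j i j (g u') := hh
      rw [h2]
      exact h.2.2.2.2
    · exact hh.elim
    · exact hh.elim
  obtain ⟨u, u', huu, h1, h2⟩ := hom_edge hginj hghom hij
  have hh := hadj u u' huu
  have e1 : f u = .inl i := by
    rcases hg u with ⟨_, k2, _⟩ | ⟨k1, _⟩ | ⟨_, k2⟩
    · exact absurd h1 k2
    · exact k1
    · exact absurd (h1.symm.trans k2) hij.ne
  have e2 : f u' = .inl j := by
    rcases hg u' with ⟨_, _, k3⟩ | ⟨_, k2⟩ | ⟨k1, _⟩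
    · exact absurd h2 k3
    · exact absurd (h2.symm.trans k2) hij.ne'
    · exact k1
  rw [e1, e2] at hh
  exact hh

/-- COL -/
theorem col : ColStmt := by
  intro V _ B hB hc ho M a hfree
  exact ⟨fun f v => red hB hc M a hfree f v, blue hB hc ho M a⟩

end Pool.Agent.SEP60.H43
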