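import Pool.Agent.Helper43_SEP.COL
import Pool.Agent.Helper60_RS.Basic

/-!
# MP_ff6f12_co, squad SEP: module NEQ (separation)
-/

set_option autoImplicit false

open SimpleGraph

namespace Pool.Agent.SEP60.H43

open Pool.Agent.RS80 Pool.Agent.RS81 Pool.Agent.SEP60

variable {V : Type} {B : SimpleGraph V}

theorem kappa_coreR {κ : V → Bool} (hκ : ∀ x y, B.Adj x y → κ x ≠ κ y) {M a : ℕ}
    {x y : CU V M a} (hxy : (coreR B M a).Adj x y) : coreκ κ x ≠ coreκ κ y := by
  rcases x with x | x | x
  · rcases y with y | y | y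
    · exact hκ _ _ hxy
    · exact hxy.elim
    · exact hxy.elim
  · rcases y with y | y | y
    · exact hxy.elim
    · exact hxy.elim
    · have h : KD B y.1 x.1 x.2.1 x.2.2.2 := hxy
      exact (hκ _ _ h.2.2.2.2).symm
  · rcases y with y | y | y
    · exact hxy.elim
    · have h : KD B x.1 y.1 y.2.1 y.2.2.2 := hxy
      exact hκ _ _ h.2.2.2.2
    · exact hxy.elim

theorem sup_kappa {κ : V → Bool} (hκ : ∀ x y, B.Adj x y → κ x ≠ κ y) {M a : ℕ}
    (x y : CU V M a) (hxy : (coreR B M a ⊔ coreS B M a).Adj x y) : coreκ κ x ≠ coreκ κ y := by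
  rw [sup_adj] at hxy
  rcases hxy with h | h
  · exact kappa_coreR hκ h
  · exact kappa_core hκ h

theorem coreΓ_le (M a : ℕ) : coreΓ B M a ≤ coreR B M a ⊔ coreS B M a := by
  rintro (x | x) (y | y) h
  · exact h.elim
  · exact h.elim
  · exact h.elim
  · exact h

theorem coreχ_symm {M a : ℕ} (x y : CU V M a) : coreχ x y = coreχ y x := by
  rcases x with x | x | x <;> rcases y with y | y | y <;> rfl

theorem coreΓ_cell {M a : ℕ} (i : V) (y : CU V M a) : ¬ (coreΓ B M a).Adj (.inl i) y := by
  intro h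
  rcases y with y | y <;> exact h

theorem coreΓ_color {M a : ℕ} (x y : CU V M a) (hxy : (coreΓ B M a).Adj x y) :
    ((coreR B M a).Adj x y ↔ coreχ x y = true) ∧ ((coreS B M a).Adj x y ↔ coreχ x y = false) := by
  rcases x with x | x | x
  · exact absurd hxy (coreΓ_cell x y)
  · rcases y with y | y | y
    · exact absurd hxy.symm (coreΓ_cell y _)
    · have h : (coreR B M a ⊔ coreS B M a).Adj (.inr (.inl x)) (.inr (.inl y)) := hxy
      rw [sup_adj] at h
      refine ⟨⟨fun h1 => h1.elim, fun h1 => absurd h1 (by simp [coreχ])⟩, ⟨fun _ => rfl, fun _ => ?_⟩⟩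
      exact h.resolve_left (fun h1 => h1.elim)
    · have h : (coreR B M a ⊔ coreS B M a).Adj (.inr (.inl x)) (.inr (.inr y)) := hxy
      rw [sup_adj] at h
      refine ⟨⟨fun _ => rfl, fun _ => ?_⟩, ⟨fun h1 => h1.elim, fun h1 => absurd h1 (by simp [coreχ])⟩⟩
      exact h.resolve_right (fun h1 => h1.elim)
  · rcases y with y | y | y
    · exact absurd hxy.symm (coreΓ_cell y _)
    · have h : (coreR B M a ⊔ coreS B M a).Adj (.inr (.inr x)) (.inr (.inl y)) := hxy
      rw [sup_adj] at h
      refine ⟨⟨fun _ => rfl, fun _ => ?_⟩, ⟨fun h1 => h1.elim, fun h1 => absurd h1 (by simp [coreχ])⟩⟩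
      exact h.resolve_right (fun h1 => h1.elim)
    · have h : (coreR B M a ⊔ coreS B M a).Adj (.inr (.inr x)) (.inr (.inr y)) := hxy
      rw [sup_adj] at h
      rcases h with h | h <;> exact h.elim

/-- the smallest side -/
theorem exists_side [Finite V] (hB : TwoConn B) (hc : B.Colorable 2) :
    ∃ a N : ℕ, 1 ≤ a ∧ B ⊑ completeBipartiteGraph (Fin (a + 1)) (Fin N) ∧
      ∀ N, B.Free (completeBipartiteGraph (Fin a) (Fin N)) := by
  classical
  obtain ⟨κ, hκ⟩ := exists_kappa hc
  have hex : ∃ m N : ℕ, B ⊑ completeBipartiteGraph (Fin m) (Fin N) := by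
    let e : V ≃ Fin (Nat.card V) := Finite.equivFin V
    refine ⟨Nat.card V, Nat.card V, ⟨⟨⟨fun v => if κ v = true then .inl (e v) else .inr (e v), ?_⟩,
      ?_⟩⟩⟩
    · intro x y hxy
      have h1 := hκ x y hxy
      by_cases hx : κ x = true <;> by_cases hy : κ y = true
      · exact absurd (hx.trans hy.symm) h1
      · simp [hx, hy]
      · simp [hx, hy]
      · exfalso
        apply h1
        rw [Bool.not_eq_true] at hx hy
        rw [hx, hy]
    · intro x y hxy
      have hxy' : (if κ x = true then (.inl (e x) : Fin (Nat.card V) ⊕ Fin (Nat.card V))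
        else .inr (e x)) = if κ y = true then .inl (e y) else .inr (e y) := hxy
      by_cases hx : κ x = true <;> by_cases hy : κ y = true
      · rw [if_pos hx, if_pos hy] at hxy'
        exact e.injective (Sum.inl_injective hxy')
      · rw [if_pos hx, if_neg hy] at hxy'
        exact absurd hxy' (by simp)
      · rw [if_neg hx, if_pos hy] at hxy'
        exact absurd hxy' (by simp)
      · rw [if_neg hx, if_neg hy] at hxy'
        exact e.injective (Sum.inr_injective hxy')
  have hm := Nat.find_spec hex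
  obtain ⟨m, hmdef⟩ : ∃ m, Nat.find hex = m := ⟨_, rfl⟩
  rw [hmdef] at hm
  obtain ⟨N, hN⟩ := hm
  have hm2 : 2 ≤ m := by
    by_contra hlt
    push Not at hlt
    obtain ⟨f⟩ := hN
    have hadj : ∀ x y, B.Adj x y → (f x).isLeft = true ∨ (f y).isLeft = true := by
      intro x y hxy
      have h1 := f.toHom.map_adj hxy
      rw [completeBipartiteGraph_adj] at h1
      rcases h1 with h | h
      · left; exact h.1
      · right; exact h.2
    have hinj : ∀ x y, (f x).isLeft = true → (f y).isLeft = true → x = y := by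
      intro x y hx hy
      apply f.injective
      change f x = f y
      obtain ⟨r, hr⟩ := Sum.isLeft_iff.1 hx
      obtain ⟨s, hs⟩ := Sum.isLeft_iff.1 hy
      rw [hr, hs]
      congr 1
      apply Fin.ext
      have := r.2
      have := s.2
      omega
    obtain ⟨x₀, hx₀⟩ : ∃ x, (f x).isLeft = true := by
      obtain ⟨v⟩ := hB.2.1.nonempty
      obtain ⟨w, hw⟩ := hB.exists_adj v
      rcases hadj v w hw with h | h
      · exact ⟨v, h⟩
      · exact ⟨w, h⟩
    obtain ⟨v, hv⟩ := hB.exists_adj x₀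
    obtain ⟨u, hu1, hu2⟩ := hB.exists_adj_ne v x₀
    rcases hadj v u hu2 with h | h
    · exact hv.ne (hinj _ _ hx₀ h)
    · exact hu1 (hinj _ _ h hx₀)
  refine ⟨m - 1, N, by omega, ?_, ?_⟩
  · rwa [Nat.sub_add_cancel (by omega)]
  · intro N' h
    have h1 : m - 1 < Nat.find hex := by omega
    exact Nat.find_min hex h1 ⟨N', h⟩

/-- NEQ -/
theorem neq (env : EnvStmt) (cra : CraStmt) (hcol : ColStmt) : NeqStmt := by
  classical
  intro V _ B ℓ hB hc ho hl heq
  obtain ⟨κ, hκ⟩ := exists_kappa hc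
  obtain ⟨a, N, ha, hBN, hfree⟩ := exists_side hB hc
  obtain ⟨hred, hblue⟩ := hcol V B hB hc ho (2 * N + 1) a hfree
  obtain ⟨W, _, F, h1, h2, h3, h4⟩ := env V B hB hc ho (CU V (2 * N + 1) a)
    (coreR B (2 * N + 1) a ⊔ coreS B (2 * N + 1) a) (coreΓ B (2 * N + 1) a) (coreκ κ) coreχ
    (sup_kappa hκ) (coreΓ_le _ _) coreχ_symm
  have hnot : ¬ InC B F := cra V B hB hc ho a N ha hBN W F h1 h3
  have harr : Arrows F B := by
    by_contra h
    exact hnot (H60.not_arrows_iff.1 h)
  -- transfer
  have harr' : Arrows F (pendL B ℓ) := by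
    let e : (CU V (2 * N + 1) a ⊕ W) ≃ Fin (Nat.card (CU V (2 * N + 1) a ⊕ W)) :=
      Finite.equivFin _
    have hiso : F ≃g F.map e.toEmbedding := Iso.map e F
    have h5 := H60.arrows_of_iso hiso harr
    exact H60.arrows_of_iso hiso.symm ((heq _ _).1 h5)
  obtain ⟨R, S, hRS, hR, hS, hRc, hSc⟩ := h4 (coreR B (2 * N + 1) a) (coreS B (2 * N + 1) a) rfl
    coreΓ_color
  have hRle : R ≤ F := by rw [← hRS]; exact le_sup_left
  rcases harr' R hRle with hf | hf
  · -- red
    obtain ⟨f⟩ := hf
    have hex : ∀ v, ∃ x, f (.inl v) = .inl x := fun v => by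
      let g : Copy B R := ⟨⟨fun v => f (.inl v), fun {x y} h => f.toHom.map_adj
        (show (pendL B ℓ).Adj (.inl x) (.inl y) from h)⟩, fun x y h => Sum.inl_injective
        (f.injective h)⟩
      exact hRc g v
    choose g hg using hex
    have ginj : Function.Injective g := by
      intro x y h
      have h6 : f (.inl x) = f (.inl y) := by rw [hg, hg, h]
      exact Sum.inl_injective (f.injective h6)
    let gc : Copy B (coreR B (2 * N + 1) a) := ⟨⟨g, fun {x y} h => by
      have h6 : R.Adj (f (.inl x)) (f (.inl y)) := f.toHom.map_adj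
        (show (pendL B ℓ).Adj (.inl x) (.inl y) from h)
      rw [hg, hg] at h6
      exact (hR _ _).1 h6⟩, ginj⟩
    have hcell : ∀ v, ∃ i, g v = .inl i := fun v => hred gc v
    choose k hk using hcell
    have kinj : Function.Injective k := by
      intro x y h
      apply ginj
      rw [hk, hk, h]
    have ksur : Function.Surjective k := Finite.surjective_of_injective kinj
    obtain ⟨z, hz⟩ := hl
    have h7 : R.Adj (f (.inl z)) (f (.inr ⟨z, ⟨0, hz⟩⟩)) := f.toHom.map_adj
      (show (pendL B ℓ).Adj (.inl z) (.inr ⟨z, ⟨0, hz⟩⟩) from rfl)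
    rw [hg, hk] at h7
    rcases hw : f (.inr ⟨z, ⟨0, hz⟩⟩) with y | w
    · rw [hw, hR] at h7
      rcases y with j | p | q
      · obtain ⟨v, hv⟩ := ksur j
        have h8 : f (.inr ⟨z, ⟨0, hz⟩⟩) = f (.inl v) := by rw [hw, hg, hk, hv]
        have h9 := f.injective h8
        exact absurd h9 (by simp)
      · exact h7
      · exact h7
    · rw [hw] at h7
      obtain ⟨y, hy⟩ := h2 _ _ (hRle h7)
      exact coreΓ_cell _ _ hy
  · -- blue
    obtain ⟨f⟩ := hf
    have hle : F \ R ≤ S := by
      rw [← hRS]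
      exact sdiff_le_iff.2 le_rfl
    let g0 : Copy B S := ⟨⟨fun v => f (.inl v), fun {x y} h => hle (f.toHom.map_adj
        (show (pendL B ℓ).Adj (.inl x) (.inl y) from h))⟩, fun x y h => Sum.inl_injective
        (f.injective h)⟩
    have hex : ∀ v, ∃ x, f (.inl v) = .inl x := fun v => hSc g0 v
    choose g hg using hex
    apply hblue
    refine ⟨⟨⟨g, fun {x y} h => ?_⟩, ?_⟩⟩
    · have h6 : S.Adj (f (.inl x)) (f (.inl y)) := hle (f.toHom.map_adj
        (show (pendL B ℓ).Adj (.inl x) (.inl y) from h))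
      rw [hg, hg] at h6
      exact (hS _ _).1 h6
    · intro x y h
      have h' : g x = g y := h
      have h6 : f (.inl x) = f (.inl y) := by rw [hg, hg, h']
      exact Sum.inl_injective (f.injective h6)

end Pool.Agent.SEP60.H43
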